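import Pool.Agent.Lib.MP_dee884_lc.H3.Final

/-!
# MP_dee884_lc: RUD is not captured with a fixed number of quantifiers over a fixed alphabet

Definitions: `LINTIME` (Pool.Agent.Lib.MP_dee884_lc.Defs), `Rud` (H1/Rud.lean), `pad`, `NTM`,
`NTM.Acc`, `OneTape` (H2/Defs.lean), `ClsL` (H3/ClsLDef.lean).
-/

namespace Pool.Agent.Results.MP_dee884_lc.LinearTimeLevels

open MPdee884H1 MPdee884H2 MPdee884H3

/-- Let `E` be a finite family of languages in RUD. For all `k ≥ 2` and `j` there is a language `U`
in RUD over `{false, true}` which disagrees with each language of the class `ClsL E k j` on all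
words with a suitable beginning `w`. -/
theorem result {ρ : Type} [Finite ρ] {B : ρ → Type} [∀ i, Finite (B i)]
    (E : (i : ρ) → Set (List (B i × Bool))) (hE : ∀ i, Rud (B i × Bool) (E i)) (k j : ℕ)
    (hk : 2 ≤ k) :
    ∃ U : Set (List Bool), Rud Bool U ∧ ∀ L : Set (List Bool), ClsL E k j Bool L →
      ∃ w : List Bool, ∀ r : List Bool, w ++ r ∈ U ↔ w ++ r ∉ L :=
  rud_clsL E hE k j hk

end Pool.Agent.Results.MP_dee884_lc.LinearTimeLevels
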