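import Pool.Agent.Lib.MP_dee884_lc.RatQ

/-!
# Complements of the rational closure of deterministic linear time

If the complement of every product of three languages of `LINTIME` is in `Q`, or of every iteration `A*` of a language of `LINTIME`, then the
complements of all languages obtained from languages of `LINTIME` by union, product and iteration are in `Q`.
-/

set_option autoImplicit false

open Pool.Agent.Lin

namespace Pool.Agent.Lib.MP_dee884_lc.Old.RationalClosure

theorem result : List.TFAE [
    -- products of three languages of `LINTIME`
    ∀ (α : Type) [Finite α] (A B C : Set (List α)), LINTIME A → LINTIME B → LINTIME C → InQ (cat (cat A B) C)ᶜ,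
    -- iterations
    ∀ (α : Type) [Finite α] (A : Set (List α)), LINTIME A → InQ (star A)ᶜ,
    -- all factors in a language of `LINTIME`
    ∀ (α : Type) [Finite α] (L : Set (List α)), LINTIME L → InQ {x | ∀ u, u <:+: x → u ∈ L},
    -- the rational closure of `LINTIME`
    ∀ (α : Type) [Finite α] (R : Set (List α)), Rat R → InQ Rᶜ] := by
  tfae_have 1 → 3 := PFacL_of_PCat3L
  tfae_have 2 → 3 := PFacL_of_PStarL
  tfae_have 3 → 4 := PRatL_of_PFacL
  tfae_have 4 → 1 := fun h α _ A B C hA hB hC => h α _ (.cat _ _ (.cat _ _ (.base A hA) (.base B hB)) (.base C hC))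
  tfae_have 4 → 2 := fun h α _ A hA => h α _ (.star _ (.base A hA))
  tfae_finish

end Pool.Agent.Lib.MP_dee884_lc.Old.RationalClosure
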