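import Pool.Agent.Lib.MP_dee884_lc.Tally

/-!
# Complements of thin languages and complements of tally languages
-/

set_option autoImplicit false

open Pool.Agent.Lin

namespace Pool.Agent.Lib.MP_dee884_lc.ThinTally

/-- For the class `Q` the following are equivalent: tally languages have their complements in `Q`; slender languages have; prefix-closed
languages without dead ends, for which the number of the words of length `n` grows by a bounded number, have. -/
theorem result : List.TFAE [
    ∀ T : Set (List Unit), InQ T → InQ Tᶜ,
    ∀ (α : Type) [Finite α] (L : Set (List α)) (k : ℕ), (∀ n, cens L n ≤ k) → InQ L → InQ Lᶜ,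
    ∀ (α : Type) [Finite α] (L : Set (List α)) (k : ℕ), PrefixClosed L → Leafless L →
      (∀ n, cens L (n + 1) ≤ cens L n + k) → InQ L → InQ Lᶜ] := by
  tfae_have 1 → 2 := by
    intro h α _ L k hk hL
    refine slender L k hL hk fun j => (h _ (slender_ge L k hL hk (j + 1))).congr fun a => ?_
    change cens L a.length ≤ j ↔ ¬ (j + 1 ≤ cens L a.length)
    omega
  tfae_have 1 → 3 := by
    intro h α _ L k h1 h2 hk hL
    refine tree_compl L k hL h1 h2 hk fun j => (h _ (tree_ge L k hL h1 h2 hk (j + 1))).congr fun a => ?_
    change cens L (a.length + 1) ≤ cens L a.length + j ↔ ¬ (cens L a.length + (j + 1) ≤ cens L (a.length + 1))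
    omega
  tfae_have 2 → 1 := by
    intro h T hT
    refine h Unit T 1 (fun n => ?_) hT
    unfold cens
    rw [Set.ncard_le_one ((List.finite_length_eq Unit n).subset fun x hx => hx.2)]
    rintro a ⟨_, ha⟩ b ⟨_, hb⟩
    refine List.ext_getElem (by rw [ha, hb]) fun _ _ _ => rfl
  tfae_have 3 → 1 := by
    intro h T hT
    exact treeT_back (h (Fin 3) (treeT T) 1 (treeT_prefix T) (treeT_leafless T) (treeT_cens T) (treeT_inQ hT))
  tfae_finish

end Pool.Agent.Lib.MP_dee884_lc.ThinTally
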